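import Mathlib

/-!
A connected graph with multipacking number 2, fractional broadcast number 3 and broadcast
domination number 4: the Cartesian product of the third power of the 15-cycle with an edge.
-/

set_option autoImplicit false

open Finset

namespace Pool.Agent.Results.MP_93535d_co.Example

/-- The eccentricity `e(v)`: the largest distance from `v` to a vertex. -/
noncomputable def ecc {V : Type} [Fintype V] (G : SimpleGraph V) (v : V) : ℕ :=
  univ.sup fun u => G.dist u v

/-- `f` is a dominating broadcast. -/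
def IsDomBroadcast {V : Type} [Fintype V] (G : SimpleGraph V) (f : V → ℕ) : Prop :=
  (∀ v, f v ≤ ecc G v) ∧ ∀ u, ∃ v, 1 ≤ f v ∧ G.dist u v ≤ f v

/-- The broadcast domination number. -/
noncomputable def broadcastNumber {V : Type} [Fintype V] (G : SimpleGraph V) : ℕ :=
  sInf {c : ℕ | ∃ f : V → ℕ, IsDomBroadcast G f ∧ c = ∑ v, f v}

/-- `M` is a multipacking: every ball of radius `k ≥ 1` holds at most `k` vertices of `M`. -/
def IsMultipacking {V : Type} (G : SimpleGraph V) (M : Finset V) : Prop :=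
  ∀ (v : V) (k : ℕ), 1 ≤ k → (M.filter fun u => G.dist u v ≤ k).card ≤ k

/-- The multipacking number. -/
noncomputable def multipackingNumber {V : Type} (G : SimpleGraph V) : ℕ :=
  sSup {c : ℕ | ∃ M : Finset V, IsMultipacking G M ∧ c = M.card}

/-- The fractional broadcast number: the optimum of the linear program. -/
noncomputable def fracBroadcastNumber {V : Type} [Fintype V] (G : SimpleGraph V) : ℝ :=
  sInf {c : ℝ | ∃ x : V → ℕ → ℝ, (∀ v k, 0 ≤ x v k) ∧
    (∀ u, 1 ≤ ∑ v, ∑ k ∈ (Icc 1 (ecc G v)).filter (fun k => G.dist u v ≤ k), x v k) ∧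
    c = ∑ v, ∑ k ∈ Icc 1 (ecc G v), (k : ℝ) * x v k}

/-! The example -/

def D (u v : Fin 30) : ℕ :=
  (min ((u.1 + 30 - v.1) % 15) ((v.1 + 30 - u.1) % 15) + 2) / 3 + (u.1 / 15 + v.1 / 15) % 2

theorem D_symm : ∀ u v, D u v = D v u := by decide +kernel
theorem D_zero : ∀ u v, D u v = 0 ↔ u = v := by decide +kernel
theorem D_step : ∀ u w, D u w = 1 → ∀ v, D u v ≤ D w v + 1 := by decide +kernel
theorem D_down : ∀ u v, u ≠ v → ∃ w, D u w = 1 ∧ D w v + 1 = D u v := by decide +kernel
theorem D_sup : ∀ v, (univ.sup fun u => D u v) = 4 := by decide +kernel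
theorem D_ball1 : ∀ v, (univ.filter fun u => D u v ≤ 1).card = 8 := by decide +kernel
theorem D_ball2 : ∀ v, (univ.filter fun u => D u v ≤ 2).card = 20 := by decide +kernel
theorem D_ball2' : ∀ u, (univ.filter fun v => D u v ≤ 2).card = 20 := by decide +kernel
theorem D_ball3 : ∀ v, (univ.filter fun u => D u v ≤ 3).card = 28 := by decide +kernel
theorem D_near : ∀ a b, D a b ≤ 2 → ∃ v, D a v ≤ 1 ∧ D b v ≤ 1 := by decide +kernel
theorem D_far : ∀ a b, 3 ≤ D a b → ∀ c, 3 ≤ D a c → 3 ≤ D b c →
    ∃ v, D a v ≤ 2 ∧ D b v ≤ 2 ∧ D c v ≤ 2 := by decide +kernel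
theorem D_pair : ∀ v, ¬ (D 0 v ≤ 1 ∧ D 7 v ≤ 1) := by decide +kernel

def G : SimpleGraph (Fin 30) where
  Adj u v := D u v = 1
  symm := ⟨fun u v h => by rw [D_symm]; exact h⟩
  loopless := ⟨fun u h => by rw [(D_zero u u).2 rfl] at h; exact zero_ne_one h⟩

theorem exists_walk (v : Fin 30) : ∀ (n : ℕ) (u : Fin 30), D u v = n →
    ∃ p : G.Walk u v, p.length = n := by
  intro n
  induction n with
  | zero =>
    intro u h
    obtain rfl := (D_zero u v).1 h
    exact ⟨.nil, rfl⟩
  | succ n ih =>
    intro u h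
    have hne : u ≠ v := fun e => by rw [(D_zero u v).2 e] at h; omega
    obtain ⟨w, h1, h2⟩ := D_down u v hne
    obtain ⟨p, hp⟩ := ih w (by omega)
    exact ⟨.cons (show G.Adj u w from h1) p, by simp [hp]⟩

theorem D_le_length {u v : Fin 30} (p : G.Walk u v) : D u v ≤ p.length := by
  induction p with
  | nil => rw [(D_zero _ _).2 rfl]; exact Nat.zero_le _
  | cons h p ih => exact (D_step _ _ h _).trans (by simpa using ih)

theorem G_conn : G.Connected :=
  ⟨fun u v => (exists_walk v _ u rfl).elim fun p _ => ⟨p⟩⟩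

theorem G_dist (u v : Fin 30) : G.dist u v = D u v := by
  apply le_antisymm
  · obtain ⟨p, hp⟩ := exists_walk v _ u rfl
    rw [← hp]; exact G.dist_le p
  · obtain ⟨p, hp⟩ := G_conn.exists_walk_length_eq_dist u v
    rw [← hp]; exact D_le_length p

theorem G_ecc (v : Fin 30) : ecc G v = 4 := by
  simp only [ecc, G_dist]; exact D_sup v

theorem ball_le (v : Fin 30) (k : ℕ) (hk : 1 ≤ k) :
    (univ.filter fun u => D u v ≤ k).card + 2 * (k % 2) ≤ 10 * k := by
  rcases (by omega : k = 1 ∨ k = 2 ∨ k = 3 ∨ 4 ≤ k) with rfl | rfl | rfl | h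
  · rw [D_ball1]
  · rw [D_ball2]
  · rw [D_ball3]
  · have := card_le_univ (univ.filter fun u => D u v ≤ k)
    rw [Fintype.card_fin] at this
    omega

theorem mp_eq : multipackingNumber G = 2 := by
  apply IsGreatest.csSup_eq
  constructor
  · refine ⟨{0, 7}, ?_, by decide⟩
    intro v k hk
    simp only [G_dist]
    rcases (by omega : k = 1 ∨ 2 ≤ k) with rfl | h
    · rw [card_le_one]
      intro a ha b hb
      have := D_pair v
      simp only [mem_filter, mem_insert, mem_singleton] at ha hb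
      obtain ⟨rfl | rfl, ha⟩ := ha <;> obtain ⟨rfl | rfl, hb⟩ := hb <;> tauto
    · exact (card_filter_le _ _).trans (card_le_two.trans h)
  · rintro c ⟨M, hM, rfl⟩
    by_contra hc
    obtain ⟨a, ha, b, hb, c, hc, hab, hac, hbc⟩ := two_lt_card.1 (not_le.1 hc)
    have far : ∀ x ∈ M, ∀ y ∈ M, x ≠ y → 3 ≤ D x y := by
      intro x hx y hy hxy
      by_contra h
      obtain ⟨v, h1, h2⟩ := D_near x y (by omega)
      have := card_le_one.1 (hM v 1 le_rfl) x (by simp [hx, G_dist, h1]) y
        (by simp [hy, G_dist, h2])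
      exact hxy this
    obtain ⟨v, h1, h2, h3⟩ := D_far a b (far a ha b hb hab) c (far a ha c hc hac) (far b hb c hc hbc)
    have := hM v 2 (by norm_num)
    refine absurd (two_lt_card.2 ⟨a, ?_, b, ?_, c, ?_, hab, hac, hbc⟩) (not_lt.2 this) <;>
      simp [*, G_dist]

theorem frac_eq : fracBroadcastNumber G = 3 := by
  apply IsLeast.csInf_eq
  constructor
  · refine ⟨fun _ k => if k = 2 then 1 / 20 else 0, ?_, ?_, ?_⟩
    · intro v k; dsimp only; split_ifs <;> norm_num
    · intro u
      simp only [G_ecc, G_dist, sum_ite_eq', mem_filter, mem_Icc]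
      rw [← sum_filter]
      simp only [Nat.one_le_ofNat, Nat.reduceLeDiff, and_self, true_and, sum_const, D_ball2']
      norm_num
    · simp only [G_ecc, mul_ite, mul_zero, sum_ite_eq', mem_Icc]
      norm_num
  · rintro c ⟨x, hx, hcov, rfl⟩
    simp only [G_ecc, G_dist] at hcov ⊢
    have h1 : (30 : ℝ) ≤ ∑ u, ∑ v, ∑ k ∈ (Icc 1 4).filter (fun k => D u v ≤ k), x v k := by
      have := sum_le_sum (s := univ) fun u _ => hcov u
      simpa using this
    have h2 : ∑ u, ∑ v, ∑ k ∈ (Icc 1 4).filter (fun k => D u v ≤ k), x v k ≤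
        10 * ∑ v, ∑ k ∈ Icc (1 : ℕ) 4, (k : ℝ) * x v k := by
      rw [sum_comm, mul_sum]
      refine sum_le_sum fun v _ => ?_
      simp only [sum_filter]
      rw [sum_comm, mul_sum]
      refine sum_le_sum fun k hk => ?_
      rw [← sum_filter, sum_const, nsmul_eq_mul, ← mul_assoc]
      refine mul_le_mul_of_nonneg_right ?_ (hx v k)
      have := ball_le v k (mem_Icc.1 hk).1
      exact_mod_cast (by omega : (univ.filter fun u => D u v ≤ k).card ≤ 10 * k)
    linarith

theorem broadcast_eq : broadcastNumber G = 4 := by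
  apply IsLeast.csInf_eq
  constructor
  · refine ⟨fun v => if v = 0 then 4 else 0, ⟨?_, ?_⟩, by simp⟩
    · intro v; rw [G_ecc]; dsimp only; split_ifs <;> norm_num
    · intro u
      refine ⟨0, by simp, ?_⟩
      have h := le_sup (f := fun u => D u 0) (mem_univ u)
      rw [D_sup 0] at h
      rw [G_dist]
      simpa using h
  · rintro c ⟨f, ⟨-, hf⟩, hc⟩
    rw [hc]
    simp only [G_dist] at hf
    have h1 : (univ : Finset (Fin 30)) ⊆
        univ.biUnion fun v => univ.filter fun u => 1 ≤ f v ∧ D u v ≤ f v := by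
      intro u _
      obtain ⟨v, hv⟩ := hf u
      simp only [mem_biUnion, mem_univ, mem_filter, true_and]
      exact ⟨v, hv⟩
    have h2 := (card_le_card h1).trans card_biUnion_le
    have h3 : ∑ v, ((univ.filter fun u => 1 ≤ f v ∧ D u v ≤ f v).card + 2 * (f v % 2)) ≤
        ∑ v, 10 * f v := by
      refine sum_le_sum fun v _ => ?_
      by_cases h : 1 ≤ f v
      · simpa [h] using ball_le v (f v) h
      · have : f v = 0 := by omega
        simp [this]
    rw [sum_add_distrib, ← mul_sum, ← mul_sum] at h3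
    have h4 := Finset.sum_nat_mod univ 2 f
    rw [card_univ, Fintype.card_fin] at h2
    generalize ∑ v, (univ.filter fun u => 1 ≤ f v ∧ D u v ≤ f v).card = A at h2 h3
    generalize ∑ v, f v % 2 = B at h3 h4
    generalize ∑ v, f v = C at h3 h4 ⊢
    omega

theorem result : ∃ (V : Type) (_ : Fintype V) (G : SimpleGraph V), G.Connected ∧
    multipackingNumber G = 2 ∧ fracBroadcastNumber G = 3 ∧ broadcastNumber G = 4 :=
  ⟨Fin 30, inferInstance, G, G_conn, mp_eq, frac_eq, broadcast_eq⟩

end Pool.Agent.Results.MP_93535d_co.Example
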